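import Mathlib
import Pool.Agent.X3.NfaAlg

/-!
# Finite automata and the digits of `√2` and of all irrational algebraic numbers

The word formed by the first `N` digits of `√2`, or of any other nonnegative irrational algebraic
number, in any base has nondeterministic automatic complexity `N ^ (1 - o(1))`.
-/

set_option autoImplicit false

namespace Pool.Agent.Results.MP_175f55_nt.AutomaticComplexity

open Finset

/-- the word formed by the first `N` digits of `y` after the point in base `b` (Mathlib's
`Real.digits y b i` is the `(i+1)`-st digit after the point, `⌊y b^(i+1)⌋ mod b`) -/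
noncomputable def digitWord (y : ℝ) (b : ℕ) [NeZero b] (N : ℕ) : List (Fin b) :=
  (List.range N).map (Real.digits y b)

/-- the number of words of length `N` accepted by the automaton -/
noncomputable def numAccepted {b : ℕ} {σ : Type} (M : NFA (Fin b) σ) (N : ℕ) : ℕ :=
  {w : List (Fin b) | w ∈ M.accepts ∧ w.length = N}.ncard

/-- the number of places where `d_0 … d_(N-1)` differs from the first `N` digits of `y` -/
noncomputable def numErrors (y : ℝ) (b : ℕ) [NeZero b] (d : ℕ → Fin b) (N : ℕ) : ℕ :=
  ((range N).filter fun i => d i ≠ Real.digits y b i).card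

/-- Let `y ≥ 0` be an irrational algebraic number, for instance `√2`.

(1) There is a constant `C` such that, for all bases `b ≥ 2` (for instance `b = 10`), all
nondeterministic finite automata `M` with `q` states over the alphabet of the digits and all `N`:
if `M` accepts a word `d_0 … d_(N-1)` which differs from the first `N` digits of `y` in `k` places,
then for every `K ≥ 1` it accepts at least `(N / (C^(K+k) q))^K / N` words of length `N`.

(2) For every `δ ∈ (0, 1]` there are `c > 0` and `N₁` such that, for all bases `b ≥ 2` and all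
`N ≥ N₁`: if `M` has at most `N^(1-δ)` states and accepts a word which differs from the first `N`
digits of `y` in at most `c log N` places, then `M` accepts at least `exp (c (log N)^2)` words of
length `N`.

(3) There is a constant `C` such that, for all bases `b ≥ 2` and all `N`: if the first `N` digits of
`y` are the only word of length `N` accepted by `M`, then `M` has at least `N exp (-C √(log N))`
states. -/
theorem result (y : ℝ)
    (hy : y = Real.sqrt 2 ∨ (0 ≤ y ∧ Irrational y ∧ IsAlgebraic ℤ y)) :
    (∃ C : ℝ, 4 ≤ C ∧ ∀ (b : ℕ) [NeZero b], 2 ≤ b →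
      ∀ (σ : Type) [Fintype σ] (M : NFA (Fin b) σ) (N : ℕ) (d : ℕ → Fin b),
        (List.range N).map d ∈ M.accepts → ∀ K : ℕ, 1 ≤ K →
          ((N : ℝ) / (C ^ (K + numErrors y b d N) * (Fintype.card σ : ℝ))) ^ K ≤
            N * (numAccepted M N : ℝ)) ∧
    (∀ δ : ℝ, 0 < δ → δ ≤ 1 → ∃ c : ℝ, 0 < c ∧ ∃ N₁ : ℕ, ∀ (b : ℕ) [NeZero b], 2 ≤ b →
      ∀ (σ : Type) [Fintype σ] (M : NFA (Fin b) σ) (N : ℕ), N₁ ≤ N →
        (Fintype.card σ : ℝ) ≤ (N : ℝ) ^ (1 - δ) → ∀ d : ℕ → Fin b,
        (numErrors y b d N : ℝ) ≤ c * Real.log N → (List.range N).map d ∈ M.accepts →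
          Real.exp (c * Real.log N ^ 2) ≤ numAccepted M N) ∧
    (∃ C : ℝ, ∀ (b : ℕ) [NeZero b], 2 ≤ b → ∀ (σ : Type) [Fintype σ] (M : NFA (Fin b) σ) (N : ℕ),
      digitWord y b N ∈ M.accepts → (∀ w ∈ M.accepts, w.length = N → w = digitWord y b N) →
        (N : ℝ) * Real.exp (-(C * Real.sqrt (Real.log N))) ≤ Fintype.card σ) := by
  have hy' : 0 ≤ y ∧ Irrational y ∧ IsAlgebraic ℤ y := by
    rcases hy with rfl | hy
    · refine ⟨Real.sqrt_nonneg _, irrational_sqrt_two, Polynomial.X ^ 2 - Polynomial.C 2, ?_, ?_⟩
      · intro h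
        have := congrArg (fun f : Polynomial ℤ => f.coeff 2) h
        simp [Polynomial.coeff_X_pow] at this
      · rw [map_sub, map_pow, Polynomial.aeval_X, Polynomial.aeval_C,
          Real.sq_sqrt (by norm_num : (0 : ℝ) ≤ 2)]
        simp
    · exact hy
  obtain ⟨ρ, hρ, N₀, h⟩ := Pool.Agent.X3.NfaAlg.noPer_alg y hy'.1 hy'.2.1 hy'.2.2
  obtain ⟨h2, h3⟩ := Pool.Agent.X3.NfaWords.digits_all hρ N₀ h
  exact ⟨Pool.Agent.X3.NfaWords.digits_param hρ N₀ h, h2, h3⟩

end Pool.Agent.Results.MP_175f55_nt.AutomaticComplexity
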