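import Mathlib
import Pool.Agent.W47.LC.Two

/-!
# The linear complexity profile of the decimal digits of `√2`, with an error term

The linear complexity of the first `L` decimal digits of `√2` is `L / 2 + O(√(L log L))`, and the same
holds for the digits of `√2`, and of every real quadratic irrational, in every base `b ≥ 2`, with a
constant which does not depend on the base.
-/

set_option autoImplicit false

namespace Pool.Agent.Results.MP_175f55_nt.LinearComplexityProfile

open Finset Polynomial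

/-- the `i`-th digit of `x` after the point in base `b` -/
noncomputable def digit (b : ℕ) (x : ℝ) (i : ℕ) : ℤ := ⌊x * (b : ℝ) ^ i⌋ % (b : ℤ)

/-- the first `L` digits `a_1, …, a_L` of `x` in base `b` satisfy a linear recurrence of order `m` over
`ℚ`: `a_{i+m} = c_0 a_i + ⋯ + c_{m-1} a_{i+m-1}` for `1 ≤ i ≤ L - m` -/
def Recurrence (b : ℕ) (x : ℝ) (L m : ℕ) : Prop :=
  ∃ c : ℕ → ℚ, ∀ i : ℕ, 1 ≤ i → i + m ≤ L →
    (digit b x (i + m) : ℚ) = ∑ j ∈ range m, c j * (digit b x (i + j) : ℚ)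

/-- the linear complexity over `ℚ` of the first `L` digits of `x` in base `b`: the least order of a
linear recurrence which they satisfy -/
noncomputable def linearComplexity (b : ℕ) (x : ℝ) (L : ℕ) : ℕ := sInf {m | Recurrence b x L m}

lemma complexity_eq (b : ℕ) (x : ℝ) (L : ℕ) :
    linearComplexity b x L = Pool.Agent.H831R3.LC.complexity b x L := rfl

/-- Liouville's inequality for quadratic irrationals -/
theorem liouville (x : ℝ) (hx : Irrational x) (u v w : ℤ) (hu : u ≠ 0)
    (h : (u : ℝ) * x ^ 2 + v * x + w = 0) :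
    ∃ c : ℝ, 0 < c ∧ ∀ q : ℕ, 1 ≤ q → ∀ p : ℤ, c ≤ (q : ℝ) * |q * x - p| := by
  set f : ℤ[X] := C u * X ^ 2 + C v * X + C w with hf
  have hd : f.natDegree = 2 := natDegree_quadratic hu
  have f0 : f ≠ 0 := by
    intro h0
    rw [h0, natDegree_zero] at hd
    omega
  obtain ⟨a, ha, hL⟩ := Liouville.exists_pos_real_of_irrational_root hx f0 (by
    rw [hf]
    simp only [Polynomial.map_add, Polynomial.map_mul, Polynomial.map_pow, Polynomial.map_C,
      Polynomial.map_X, eval_add, eval_mul, eval_pow, eval_C, eval_X]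
    simpa using h)
  refine ⟨1 / a, by positivity, fun q hq p => ?_⟩
  have h1 := hL p (q - 1)
  have hqR : (0 : ℝ) < q := by exact_mod_cast hq
  have e1 : (((q - 1 : ℕ) : ℝ) + 1) = q := by
    rw [Nat.cast_sub hq]
    push_cast
    ring
  rw [e1, hd] at h1
  have e2 : |x - p / q| = |q * x - p| / q := by
    rw [← abs_of_pos hqR, ← abs_div, abs_of_pos hqR]
    congr 1
    field_simp
  rw [e2] at h1
  rw [div_le_iff₀ ha]
  calc (1 : ℝ) ≤ (q : ℝ) ^ 2 * (|q * x - p| / q * a) := h1
    _ = (q : ℝ) * |q * x - p| * a := by field_simp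

theorem quadratic (x : ℝ) (hx : Irrational x) (u v w : ℤ) (hu : u ≠ 0)
    (h : (u : ℝ) * x ^ 2 + v * x + w = 0) :
    ∃ C : ℝ, ∀ L : ℕ, ∀ b : ℕ, 2 ≤ b →
      |(linearComplexity b x L : ℝ) - L / 2| ≤ C * Real.sqrt (L * Real.log (L + 1)) := by
  obtain ⟨c, hc, hq⟩ := liouville x hx u v w hu h
  exact Pool.Agent.W47.LC.two x 0 c hc (fun q hq1 p => by simpa using hq q hq1 p)

/-- The linear complexity of the first `L` digits of `√2` in base `b` is `L / 2 + O(√(L log L))`, with
a constant independent of the base `b`; the same holds for every real quadratic irrational, and for all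
real `x` with `|q x - p| ≥ c / (q (1 + log q)^A)` for all integers `p` and `q ≥ 1`. -/
theorem result :
    (∃ C : ℝ, ∀ L : ℕ, ∀ b : ℕ, 2 ≤ b →
      |(linearComplexity b (Real.sqrt 2) L : ℝ) - L / 2| ≤ C * Real.sqrt (L * Real.log (L + 1))) ∧
    (∀ x : ℝ, Irrational x → (∃ u v w : ℤ, u ≠ 0 ∧ (u : ℝ) * x ^ 2 + v * x + w = 0) →
      ∃ C : ℝ, ∀ L : ℕ, ∀ b : ℕ, 2 ≤ b →
        |(linearComplexity b x L : ℝ) - L / 2| ≤ C * Real.sqrt (L * Real.log (L + 1))) ∧
    (∀ (x : ℝ) (A : ℕ) (c : ℝ), 0 < c →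
      (∀ q : ℕ, 1 ≤ q → ∀ p : ℤ, c ≤ (q : ℝ) * (1 + Real.log q) ^ A * |q * x - p|) →
      ∃ C : ℝ, ∀ L : ℕ, ∀ b : ℕ, 2 ≤ b →
        |(linearComplexity b x L : ℝ) - L / 2| ≤ C * Real.sqrt (L * Real.log (L + 1))) := by
  refine ⟨quadratic _ irrational_sqrt_two 1 0 (-2) one_ne_zero ?_, ?_, ?_⟩
  · push_cast
    rw [Real.sq_sqrt (by norm_num)]
    norm_num
  · rintro x hx ⟨u, v, w, hu, h⟩
    exact quadratic x hx u v w hu h
  · intro x A c hc h
    exact Pool.Agent.W47.LC.two x A c hc h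

end Pool.Agent.Results.MP_175f55_nt.LinearComplexityProfile
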