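import Mathlib
import Pool.Agent.X101.SD.Words

set_option autoImplicit false

/-!
# MP_175f55_nt: the digits of the translates of the square root of 2 by ternary fractions

The number `C` depends on `a` (and `b`) only, not on `x` (for instance `x = √2`) and not on `N`.
-/

namespace Pool.Agent.Results.MP_175f55_nt.TernaryTranslates

open Pool.Agent.X101.SD

/-- (1) Let `a ≥ 2` be coprime to `10` (for instance `a = 3`). There is `C` such that for every real
`x` (for instance `√2`) and all `N` at most `C` of the `a ^ N` numbers `x + m / a ^ N`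
(`0 ≤ m < a ^ N`) have a decimal digit which occurs only finitely often.
(2) Let `a, b ≥ 2` be coprime. There is `C` such that for all `k`, `0 < η ≤ 1` and every real `x`
the numbers `r` in `[0, 1)` of the form `m / a ^ N` such that the blocks of `k` digits of `x + r` in
base `b` are not nearly equally frequent (up to `1 ± η`) among the first `n` places for infinitely
many `n` are finite in number, and they are at most `C b ^ (22 k) / η ^ 14`. -/
theorem result :
    (∀ a : ℕ, 2 ≤ a → a.Coprime 10 → ∃ C : ℕ, ∀ (x : ℝ) (N : ℕ),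
      {m : ℕ | m < a ^ N ∧ ∃ d : ℕ, d < 10 ∧
        {n : ℕ | decimalDigit (x + m / (a : ℝ) ^ N) n = d}.Finite}.ncard ≤ C) ∧
    (∀ a b : ℕ, 2 ≤ a → 2 ≤ b → a.Coprime b → ∃ C : ℝ, ∀ (k : ℕ) (η : ℝ), 0 < η → η ≤ 1 →
      ∀ x : ℝ,
        {r : ℝ | 0 ≤ r ∧ r < 1 ∧ (∃ (N : ℕ) (m : ℤ), r = m / (a : ℝ) ^ N) ∧
          ¬ NearlyUniform b k η (x + r)}.Finite ∧
        ({r : ℝ | 0 ≤ r ∧ r < 1 ∧ (∃ (N : ℕ) (m : ℤ), r = m / (a : ℝ) ^ N) ∧
          ¬ NearlyUniform b k η (x + r)}.ncard : ℝ) ≤ C * (b : ℝ) ^ (22 * k) / η ^ 14) :=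
  ⟨ternary_translates, fun _ _ ha hb hab => coset_words ha hb hab⟩

end Pool.Agent.Results.MP_175f55_nt.TernaryTranslates
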