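import Pool.Agent.Results.MP_175f55_nt.EveryDigitInMostMultiples
import Pool.Agent.X174.WinN

/-!
# Every digit occurs infinitely often in `x + m √2`, for ALL `m` in windows around thin sequences

For all `k ≥ 1` and `A > 0` there is `0 < c < 1` such that for every real `x`, every sequence `v ≥ 1` of exponent of
convergence at most `τ` (for `v_i = i ^ a` this is `1 / a`, for `v_i = b ^ i` it is `0`) and `θ < 1`, outside a set of
`α > 0` of Hausdorff dimension at most `(1 - c + τ) / (1 - θ)`, for all but finitely many `i` and ALL integers `m ≥ 1`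
with `|m - α v_i| ≤ v_i ^ θ` every word of `k` digits occurs infinitely often in the decimal expansion of `x + m √2`, and
for infinitely many `n` at least `A log m log n` times among the first `n` digits.

The number of exceptions is from the starting result `EveryDigitInMostMultiples`, the passage to windows from the
starting module `Pool.Agent.Y854.GM.Win`.
-/

set_option autoImplicit false

open Filter

namespace Pool.Agent.Results.MP_175f55_nt.WordsInWindows

open Pool.Agent.X174 (winN cumN)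

/-- the exponent of convergence of the sequence `v` is at most `τ` -/
def ExpLe (v : ℕ → ℝ) (τ : ℝ) : Prop := ∀ t : ℝ, τ < t → Summable (fun n : ℕ => (v n) ^ (-t))

/-- the `j`-th decimal digit of `y` (`j ≥ 1`) -/
noncomputable def digit (y : ℝ) (j : ℕ) : ℤ := ⌊y * 10 ^ j⌋ % 10

/-- the word `w` of `k` digits stands in the decimal expansion of `y` right after the `i`-th digit -/
def Stands (k : ℕ) (w : Fin k → Fin 10) (y : ℝ) (i : ℕ) : Prop :=
  ∀ s : Fin k, digit y (i + s + 1) = ((w s : ℕ) : ℤ)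

/-- the number of the places `i < n` at which the word `w` stands -/
noncomputable def count (k : ℕ) (w : Fin k → Fin 10) (y : ℝ) (n : ℕ) : ℕ :=
  {i : ℕ | i < n ∧ Stands k w y i}.ncard

/-- **Theorem.** For all `k ≥ 1` and `A > 0` there is `c` with `0 < c < 1` such that for every sequence `v ≥ 1` of
exponent of convergence at most `τ ≥ 0`, every `θ < 1` and every real `x` there is a set `E` of Hausdorff dimension at
most `(1 - c + τ) / (1 - θ)` such that for each `α > 0` outside `E`, for all but finitely many `i` and ALL integers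
`m ≥ 1` with `|m - α v_i| ≤ v_i ^ θ`: every word of `k` decimal digits (for `k = 1`: each of the ten digits) stands
infinitely often in the decimal expansion of `x + m √2`, and for infinitely many `n` every such word stands at least
`A log m log n` times at the first `n` places. The sequences `v_i = (i + 1) ^ a` and `v_i = b ^ i` have exponent of
convergence at most `1 / a` and `0`. -/
theorem result (k : ℕ) (hk : 1 ≤ k) (A : ℝ) (hA : 0 < A) :
    (∃ c : ℝ, 0 < c ∧ c < 1 ∧
      ∀ (v : ℕ → ℝ) (τ θ : ℝ), (∀ i, 1 ≤ v i) → 0 ≤ τ → ExpLe v τ → θ < 1 → ∀ x : ℝ,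
      ∃ E : Set ℝ, dimH E ≤ ENNReal.ofReal ((1 - c + τ) / (1 - θ)) ∧
        ∀ α : ℝ, 0 < α → α ∉ E → ∃ i₀ : ℕ, ∀ i : ℕ, i₀ ≤ i →
          ∀ m : ℕ, 1 ≤ m → |(m : ℝ) - α * v i| ≤ (v i) ^ θ →
            (∀ w : Fin k → Fin 10, {j : ℕ | Stands k w (x + m * Real.sqrt 2) j}.Infinite) ∧
            ∃ᶠ n : ℕ in atTop, ∀ w : Fin k → Fin 10,
              A * Real.log m * Real.log n ≤ (count k w (x + m * Real.sqrt 2) n : ℝ)) ∧
    (∀ a : ℝ, 0 < a → ExpLe (fun n : ℕ => ((n : ℝ) + 1) ^ a) (1 / a)) ∧
    (∀ b : ℝ, 1 < b → ExpLe (fun n : ℕ => b ^ n) 0) := by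
  refine ⟨?_, fun κ hκ => Pool.Agent.Y854.GM.expLe_pow κ hκ, fun b hb => Pool.Agent.Y854.GM.expLe_geom b hb⟩
  obtain ⟨c1, C, hc1, hC, h⟩ := EveryDigitInMostMultiples.result k hk (2 * A) (by positivity)
  set c : ℝ := min c1 (1 / 2) with hc
  have hc0 : 0 < c := lt_min hc1 (by norm_num)
  have hca : c ≤ c1 := min_le_left _ _
  have hcb : c ≤ 1 / 2 := min_le_right _ _
  refine ⟨c, hc0, by linarith, fun v τ θ hv hτ hE hθ x => ?_⟩
  set P : ℕ → Prop := fun m => ¬ ((∀ w : Fin k → Fin 10, {j : ℕ | Stands k w (x + m * Real.sqrt 2) j}.Infinite) ∧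
            ∃ᶠ n : ℕ in atTop, ∀ w : Fin k → Fin 10,
              A * Real.log m * Real.log n ≤ (count k w (x + m * Real.sqrt 2) n : ℝ)) with hP
  obtain ⟨B, hB, hcount⟩ := cumN P (1 - c) (C * 3) (by linarith) (by positivity) 1 (fun K hK => by
    have hK1 : (1 : ℝ) ≤ K := by exact_mod_cast hK
    have hKp : (0 : ℝ) < K := by linarith
    have hfin : {m : ℕ | m < 2 * K + 1 ∧ ¬ ((∀ w : Fin k → Fin 10,
          {i : ℕ | EveryDigitInMostMultiples.Stands k w (x + m * Real.sqrt 2) i}.Infinite) ∧
        ∃ᶠ n : ℕ in atTop, ∀ w : Fin k → Fin 10,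
          2 * A * Real.log ((2 * K + 1 : ℕ) : ℝ) * Real.log (n / (C * Real.log ((2 * K + 1 : ℕ) : ℝ))) ≤
            (EveryDigitInMostMultiples.count k w (x + m * Real.sqrt 2) n : ℝ))}.Finite :=
      (Set.finite_Iio (2 * K + 1)).subset fun m hm => hm.1
    have hsub : {m : ℕ | K < m ∧ m ≤ 2 * K ∧ P m} ⊆ {m : ℕ | m < 2 * K + 1 ∧ ¬ ((∀ w : Fin k → Fin 10,
          {i : ℕ | EveryDigitInMostMultiples.Stands k w (x + m * Real.sqrt 2) i}.Infinite) ∧
        ∃ᶠ n : ℕ in atTop, ∀ w : Fin k → Fin 10,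
          2 * A * Real.log ((2 * K + 1 : ℕ) : ℝ) * Real.log (n / (C * Real.log ((2 * K + 1 : ℕ) : ℝ))) ≤
            (EveryDigitInMostMultiples.count k w (x + m * Real.sqrt 2) n : ℝ))} := by
      rintro m ⟨h1, h2, h3⟩
      refine ⟨by omega, fun h4 => h3 ⟨h4.1, ?_⟩⟩
      have hm1 : (1 : ℝ) ≤ m := by exact_mod_cast (by omega : 1 ≤ m)
      set M : ℝ := ((2 * K + 1 : ℕ) : ℝ) with hM
      have hmM : (m : ℝ) ≤ M := by
        rw [hM]
        exact_mod_cast (by omega : m ≤ 2 * K + 1)
      have hM1 : 1 < M := by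
        rw [hM]
        push_cast
        linarith
      have hlM : 0 < Real.log M := Real.log_pos hM1
      have hlm : 0 ≤ Real.log m := Real.log_nonneg hm1
      have hlmM : Real.log m ≤ Real.log M := Real.log_le_log (by linarith) hmM
      set Q : ℝ := C * Real.log M with hQ
      have hQ0 : 0 < Q := by positivity
      obtain ⟨n0, hn0⟩ := exists_nat_ge (max (Q ^ 2) 1)
      refine (h4.2.and_eventually (eventually_ge_atTop n0)).mono fun n hn w => ?_
      refine le_trans ?_ (hn.1 w)
      have hn1 : max (Q ^ 2) 1 ≤ (n : ℝ) := hn0.trans (by exact_mod_cast hn.2)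
      have hn2 : Q ^ 2 ≤ (n : ℝ) := (le_max_left _ _).trans hn1
      have hn3 : (1 : ℝ) ≤ n := (le_max_right _ _).trans hn1
      have hln : 0 ≤ Real.log n := Real.log_nonneg hn3
      have h5 : Real.log n ≤ 2 * Real.log (n / Q) := by
        rw [Real.log_div (by linarith) hQ0.ne']
        have h6 := Real.log_le_log (by positivity) hn2
        rw [Real.log_pow] at h6
        push_cast at h6
        linarith
      calc A * Real.log m * Real.log n ≤ A * Real.log M * (2 * Real.log (n / Q)) := by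
            apply mul_le_mul _ h5 hln (by positivity)
            exact mul_le_mul_of_nonneg_left hlmM hA.le
        _ = 2 * A * Real.log M * Real.log (n / Q) := by ring
    refine (Nat.cast_le.2 (Set.ncard_le_ncard hsub hfin)).trans ((h x (2 * K + 1) (by omega)).trans ?_)
    rw [mul_assoc]
    apply mul_le_mul_of_nonneg_left _ hC.le
    calc ((2 * K + 1 : ℕ) : ℝ) ^ (1 - c1) ≤ ((2 * K + 1 : ℕ) : ℝ) ^ (1 - c) := by
          apply Real.rpow_le_rpow_of_exponent_le _ (by linarith)
          push_cast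
          linarith
      _ ≤ (3 * (K : ℝ)) ^ (1 - c) := by
          apply Real.rpow_le_rpow (by positivity) _ (by linarith)
          push_cast
          linarith
      _ = 3 ^ (1 - c) * (K : ℝ) ^ (1 - c) := Real.mul_rpow (by norm_num) hKp.le
      _ ≤ 3 * (K : ℝ) ^ (1 - c) := by
          apply mul_le_mul_of_nonneg_right _ (by positivity)
          calc (3 : ℝ) ^ (1 - c) ≤ 3 ^ (1 : ℝ) := Real.rpow_le_rpow_of_exponent_le (by norm_num) (by linarith)
            _ = 3 := Real.rpow_one 3)
  obtain ⟨E, h1, h2⟩ := winN P hv hτ hE (by linarith : 0 ≤ 1 - c) hθ B hB hcount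
  refine ⟨E, h1, fun α hα hαE => ?_⟩
  obtain ⟨i₀, hi⟩ := h2 α hα hαE
  exact ⟨i₀, fun i hi1 m hm hw => not_not.1 (hi i hi1 m hm hw)⟩

end Pool.Agent.Results.MP_175f55_nt.WordsInWindows
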